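import Pool.Agent.H38.WT.Targets

/-!
# Board `wt_modules`, row SE: pairs of displays that contract labels `≥ 2`
-/

set_option autoImplicit false

noncomputable section

open Pool.Agent.H38.WT

namespace Pool.Agent.H54.WT

theorem sw_val {n : ℕ} (hn : 2 ≤ n) (a : Fin n) :
    (sw n a).val = if (a : ℕ) = 0 then 1 else if (a : ℕ) = 1 then 0 else a.val := by
  unfold sw
  rw [dif_pos hn]
  split_ifs with h0 h1
  · have : a = ⟨0, by omega⟩ := Fin.ext h0
    rw [this, Equiv.swap_apply_left]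
  · have : a = ⟨1, by omega⟩ := Fin.ext h1
    rw [this, Equiv.swap_apply_right]
  · rw [Equiv.swap_apply_of_ne_of_ne]
    · intro h
      exact h0 (congrArg Fin.val h)
    · intro h
      exact h1 (congrArg Fin.val h)

theorem sa_val {n : ℕ} (x : Fin (n + 1)) (a : Fin n) :
    (x.succAbove a : ℕ) = if (a : ℕ) < x then (a : ℕ) else a + 1 := by
  unfold Fin.succAbove
  split_ifs with h1 h2 h2
  · rfl
  · exact absurd h1 h2
  · exact absurd h2 h1
  · rfl

/-- the relabeling as an equivalence -/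
def eqv (n : ℕ) (h2 : T_REL) :
    SimpleGraph (Fin (n + 1)) × Fin n × Fin n ≃ SimpleGraph (Fin (n + 1)) × Fin n × Fin n where
  toFun p := (rel (sw (n + 1)) p.1, sw n p.2.1, sw n p.2.2)
  invFun p := (rel (sw (n + 1)).symm p.1, (sw n).symm p.2.1, (sw n).symm p.2.2)
  left_inv p := by
    obtain ⟨U, i, i'⟩ := p
    simp only [Equiv.symm_apply_apply, (h2 _ U (sw (n + 1))).2.2]
  right_inv p := by
    obtain ⟨U, i, i'⟩ := p
    have h3 := (h2 _ U (sw (n + 1)).symm).2.2
    rw [Equiv.symm_symm] at h3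
    simp only [Equiv.apply_symm_apply, h3]

theorem pf_SE (h1 : T_SC) (h2 : T_REL) (h3 : T_PT) : T_SE := by
  intro n hn x x' hx hx'
  have hfix : ∀ y : Fin (n + 1), 2 ≤ (y : ℕ) → sw (n + 1) y = y := by
    intro y hy
    apply Fin.ext
    rw [sw_val (by omega), if_neg (by omega), if_neg (by omega)]
  have hcomm : ∀ y : Fin (n + 1), 2 ≤ (y : ℕ) → ∀ a : Fin n,
      sw (n + 1) (y.succAbove a) = y.succAbove (sw n a) := by
    intro y hy a
    apply Fin.ext
    have e1 := sw_val (show 2 ≤ n + 1 by omega) (y.succAbove a)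
    have e2 := sa_val y a
    have e3 := sa_val y (sw n a)
    have e4 := sw_val (show 2 ≤ n by omega) a
    rw [e1, e3]
    clear e1 e3
    generalize (y.succAbove a).val = p at *
    generalize (sw n a).val = q at *
    split_ifs at e2 e4 ⊢ <;> omega
  have hD : ∀ y : Fin (n + 1), 2 ≤ (y : ℕ) → ∀ (U : SimpleGraph (Fin (n + 1))) (i : Fin n),
      Disp1 (pI n) U y i ↔ Disp1 (pJ n) (rel (sw (n + 1)) U) y (sw n i) := by
    intro y hy U i
    rw [(h3 n hn).2.2.2.2]
    exact (h1 n (pI n) U y i (sw n) (sw (n + 1)) (hfix y hy) (hcomm y hy)).symm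
  unfold Pr
  refine Nat.card_congr (Equiv.subtypeEquiv (eqv n h2) ?_)
  rintro ⟨U, i, i'⟩
  refine and_congr ?_ (and_congr (hD x hx U i) (hD x' hx' U i'))
  exact ((h2 _ U (sw (n + 1))).1).symm

end Pool.Agent.H54.WT
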